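import Pool.Agent.Run7.h902.CsSchur

/-!
# MP_fc2ced_ag: Schur-finiteness of motives and moduli spaces of configurations of points

`D : Motives k C` are the motives `M X`, the motives with compact support `Mc X` and the Lefschetz object
in a `ℚ`-linear symmetric monoidal triangulated category, with the standard properties `IsMotives`.

`FixedModuli k A`: `Spec A` is a moduli space over `k` of configurations of points in the projective plane:
finitely many points are fixed, with arbitrary coordinates in `k`, and finitely many points move in given
Schubert cells `(1:x:y)`, `(0:1:y)`, `(0:0:1)`, such that every triple of points is prescribed to be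
collinear or not collinear. `FrameModuli k A`: the fixed points are `(1:0:0)`, `(0:1:0)`, `(0:0:1)`,
`(1:1:1)`; then `Spec A` is the realization space of a matroid of rank `3` modulo `PGL_3`.

Theorem: over a perfect field `k`, for every `n`, the motives of all smooth schemes of dimension at most
`n` are Schur-finite if and only if the motives of the smooth integral moduli spaces of configurations of
dimension at most `n` are Schur-finite; over a prime field the realization spaces of matroids of
dimension at most `n` are enough. So the first open case, `n = 2`, is a question on configuration
surfaces.

Proof. Schur-finiteness of `Mc` passes from a closed part and the open complement to the scheme;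
every integral scheme over `k` has a dense open subscheme which is ISOMORPHIC to a moduli space of
configurations (an exact form of the universality theorem of Mnev; `CuMain`, `CvMain`).
-/

set_option autoImplicit false

open CategoryTheory MonoidalCategory AlgebraicGeometry Pool.Agent.TH137.DG Pool.Agent.Y116.UV
  Pool.Agent.Z125.UN Pool.Agent.Run7.h902

namespace Pool.Agent.Results.MP_fc2ced_ag.ConfigurationSpaces

universe v u

variable {k : Type} [Field k] {C : Type u} [Category.{v} C] [MonoidalCategory C]
  [SymmetricCategory C] [Preadditive C] [Linear ℚ C] [Limits.HasZeroObject C] [HasShift C ℤ]
  [∀ n : ℤ, (shiftFunctor C n).Additive] [Pretriangulated C] {D : Motives k C}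

/-- **Theorem.** Let `k` be a perfect field. (1) For all `n` the motives of the smooth separated schemes of
finite type of dimension at most `n` over `k` are Schur-finite if and only if the motives of the smooth
integral moduli spaces of configurations of dimension at most `n` are. (2) If `k` is a prime field then
the configurations which contain the frame and no other fixed points are enough. -/
theorem result [PerfectField k] (hD : IsMotives D) :
    (∀ n : ℕ,
      (∀ X : Sch k, FT True X → Smooth X.hom → topologicalKrullDim X.left ≤ n →
        IsSchurFinite (D.M X)) ↔ Cw.ForSmoothDim k n fun X => IsSchurFinite (D.M X)) ∧
    (Cu.IntFrac k → ∀ n : ℕ,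
      (∀ X : Sch k, FT True X → Smooth X.hom → topologicalKrullDim X.left ≤ n →
        IsSchurFinite (D.M X)) ↔
      ∀ (A : Type) [CommRing A] [Algebra k A] [Algebra.FiniteType k A], IsDomain A →
        Algebra.Smooth k A → ringKrullDim A ≤ n → Cx.FrameModuli k A →
          IsSchurFinite (D.M (aff k A))) :=
  ⟨Cs.schur_dim hD, fun hk => Cs.schur_prime hk hD⟩

end Pool.Agent.Results.MP_fc2ced_ag.ConfigurationSpaces
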