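import Pool.Agent.Run7.h570.GH.Res

/-!
# MP_fc2ced_ag: Schur-finiteness of motives and graph hypersurfaces

`D : Motives k C` are the motives `M X`, the motives with compact support `Mc X` and the Lefschetz object
in a `ℚ`-linear symmetric monoidal triangulated category, with the standard properties `IsMotives` of
`DM_gm(k)_ℚ`. For a finite graph `Γ` the Kirchhoff polynomial `kirchhoff k Γ` is the sum over the spanning
trees `T` of the products of the variables `x_e`, `e ∈ T`; `complement k Γ` is the complement of the
hypersurface where it vanishes, in the affine space with one coordinate for each edge.

Theorem: over `k = ℚ` and over `k = 𝔽_p`, the motives of all smooth schemes are Schur-finite if and only if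
the motives of the complements of graph hypersurfaces are Schur-finite.

The case of zeta functions and of the localized Grothendieck ring of varieties is the theorem of Belkale
and Brosnan (2003) on the conjecture of Kontsevich; Schur-finiteness is not an invariant of classes in
the Grothendieck ring, and the theorem here needs an exact argument: every three-term system
`∑_{(i, j) ∈ E_l} x_i y_j = 0` is obtained from complements of graph hypersurfaces in finitely many steps, each
of which is an isomorphism, a closed-open decomposition, or the product with an affine line or with
`𝔾_m`. Main idea: symmetric matrices with the pattern of a graph which have a kernel of dimension `c`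
together with a flag of supports of the vectors of the kernel; such a space for `c + 1` is cut out of
the spaces for `c` and for the graph with one more vertex.
-/

set_option autoImplicit false

open CategoryTheory MonoidalCategory AlgebraicGeometry Pool.Agent.TH137.DG Pool.Agent.Y116.UV
  Pool.Agent.Z125.UN Run7.h570.GH

namespace Pool.Agent.Results.MP_fc2ced_ag.GraphHypersurfaces

universe v u

variable {C : Type u} [Category.{v} C] [MonoidalCategory C] [SymmetricCategory C] [Preadditive C]
  [Linear ℚ C] [Limits.HasZeroObject C] [HasShift C ℤ] [∀ n : ℤ, (shiftFunctor C n).Additive]
  [Pretriangulated C]

/-- All motives of smooth schemes are Schur-finite if and only if the motives of the complements of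
graph hypersurfaces are. -/
def GraphsDecide {k : Type} [Field k] (D : Motives k C) : Prop :=
  (∀ X : Sch k, FT True X → Smooth X.hom → IsSchurFinite (D.M X)) ↔
    ∀ (n : ℕ) (Γ : SimpleGraph (Fin n)), IsSchurFinite (D.M (complement k Γ))

lemma decide_of {k : Type} [Field k] [PerfectField k] {D : Motives k C} (hD : IsMotives D)
    (hS : Pool.Agent.Q282.UZ.ShortPresents k) : GraphsDecide D := by
  constructor
  · intro h n Γ
    exact h _ (ft_aff True) (smooth_complement Γ)
  · intro h X hX hs
    rw [hD.duality X hX hs]
    refine (iff_complement (P := fun X => IsSchurFinite (D.Mc X)) hS
      (gclo_of_bnd (bnd_sf hD))).mpr (fun n Γ => ?_) X hX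
    exact (hD.duality _ (ft_aff True) (smooth_complement Γ)).mp (h n Γ)

/-- **Theorem.** Over `ℚ` and over the fields with `p` elements the motives of all smooth separated
schemes of finite type are Schur-finite if and only if the motives of the complements of graph
hypersurfaces are Schur-finite. -/
theorem result :
    (∀ D : Motives ℚ C, IsMotives D → GraphsDecide D) ∧
    ∀ (p : ℕ) [Fact p.Prime] (D : Motives (ZMod p) C), IsMotives D → GraphsDecide D :=
  ⟨fun _ hD => decide_of hD Run7.h798.UV.short_rat, fun p _ _ hD => decide_of hD (short_zmod p)⟩

end Pool.Agent.Results.MP_fc2ced_ag.GraphHypersurfaces
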