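import Pool.Agent.Run7.h200.Mot
import Pool.Agent.Z125.UN.MotDefs

/-!
# Group actions and Schur-finiteness of motives

Let `C` be a `ℚ`-linear symmetric monoidal triangulated category with images of idempotents, for
example Voevodsky's category `DM_gm(k)_ℚ`, in which Schur-finiteness has the standard properties
`IsMotives` (only `cone` and `shift` are used: a cone of Schur-finite objects is Schur-finite,
theorem of Guletskii and Mazza). Let a finite group `G` act on the object `M` of `C`, for example on
the motive `M(X)` of a smooth scheme by automorphisms of `X`. For a subgroup `H` the invariants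
`M^H`, the direct summand of `M` given by the idempotent `(1 / |H|) ∑ h`, are the motive of the
quotient: `M(X)^H = M(X/H)`. `InvariantsIn IsSchurFinite a H` says that `M^H` is Schur-finite.

The theorem: `M^H` is Schur-finite if the `M^(E_i)` are Schur-finite and every irreducible rational
representation of `G` which occurs in `M` outside of the Schur-finite objects and has a nonzero
vector fixed by `H` has a nonzero vector fixed by some `E_i`. So `M` is Schur-finite if and only if

* the invariants of all subgroups `H` of `N` with cyclic quotient `N/H` are Schur-finite, if `N` is a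
  commutative subgroup of `G`; or the invariants of the components of a partition of a subgroup;
* the invariants of `⟨c⟩` and of `[G, c]` are, if `c` is an involution; those of `⟨c⟩` alone, if `c`
  is contained in a nonabelian simple subgroup;
* the invariants of `A_k` are, if `A_n` acts on `M` and `(k - 1) ^ 2 < n`; or the invariants of
  `A_k` and of the even permutations preserving the residue classes modulo `k - 1`, for any
  `2 ≤ k ≤ n`.

If `M` is not Schur-finite, but the invariants of all subgroups of prime order are, then an
irreducible representation of `G` on whose nonzero vectors `G` acts freely occurs in `M` outside of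
the Schur-finite objects, the commutative subgroups and the subgroups of order `p q` of `G` are
cyclic, and `G` has at most one involution.

Proof: direct summands and direct sums of Schur-finite objects are Schur-finite; the elements of the
rational group ring which act on `M` through Schur-finite objects are a two-sided ideal, and this
ideal contains the norm element of `H` if and only if `M^H` is Schur-finite.
-/

set_option autoImplicit false

open CategoryTheory CategoryTheory.Limits MonoidalCategory Run7.h200.Mot Run7.h200.Van
  Pool.Agent.TH137.DG Pool.Agent.Z125.UN

universe v u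

namespace Pool.Agent.Results.MP_fc2ced_ag.GroupActions

variable {k : Type} [Field k] {C : Type u} [Category.{v} C] [MonoidalCategory C]
  [SymmetricCategory C] [Preadditive C] [Linear ℚ C] [HasZeroObject C] [HasShift C ℤ]
  [∀ n : ℤ, (shiftFunctor C n).Additive] [Pretriangulated C] {D : Motives k C}

/-- Schur-finiteness is closed under sums and summands. -/
lemma closed_sf (hD : IsMotives D) : Closed (IsSchurFinite : C → Prop) where
  nonempty := ⟨𝟙_ C, sf_unit⟩
  retract i r h hM := sf_retract i r h hM
  sum {M N} hM hN := by
    have h1 := Pretriangulated.inv_rot_of_distTriang _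
      (Pretriangulated.binaryBiproductTriangle_distinguished M N)
    exact hD.cone _ h1 (hD.shift N (-1) hN) hM

/-- **Group actions and Schur-finiteness of motives.** -/
theorem result [IsIdempotentComplete C] (hD : IsMotives D) (M : C) (G : Type) [Group G] [Finite G]
    (a : G →* End M) :
    (∀ (H : Subgroup G) (ι : Type) (E : ι → Subgroup G), DominatedOutside IsSchurFinite a H E →
      (∀ i, InvariantsIn IsSchurFinite a (E i)) → InvariantsIn IsSchurFinite a H) ∧
    (∀ N : Subgroup G, (∀ x ∈ N, ∀ y ∈ N, x * y = y * x) →
      (IsSchurFinite M ↔
        ∀ H : Subgroup G, CyclicQuotient N H → InvariantsIn IsSchurFinite a H)) ∧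
    (∀ (ι : Type) (E : ι → Subgroup G) (N : Subgroup G), Partitions N E →
      (IsSchurFinite M ↔ ∀ i, InvariantsIn IsSchurFinite a (E i))) ∧
    (∀ c : G, c * c = 1 → (IsSchurFinite M ↔
      InvariantsIn IsSchurFinite a (Subgroup.zpowers c) ∧
        InvariantsIn IsSchurFinite a (commSub c))) ∧
    (∀ c : G, InSimple c → c ≠ 1 → c * c = 1 →
      (IsSchurFinite M ↔ InvariantsIn IsSchurFinite a (Subgroup.zpowers c))) ∧
    (∀ (n k : ℕ) (e : alternatingGroup (Fin n) →* G), 2 ≤ k → (k - 1) ^ 2 < n →
      (IsSchurFinite M ↔ InvariantsIn IsSchurFinite a ((altSub n k).map e))) ∧
    (∀ (n k : ℕ) (e : alternatingGroup (Fin n) →* G), 2 ≤ k → k ≤ n →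
      (IsSchurFinite M ↔ InvariantsIn IsSchurFinite a ((altSub n k).map e) ∧
        InvariantsIn IsSchurFinite a ((classSub n (k - 1)).map e))) ∧
    (¬ IsSchurFinite M →
      (∀ P : Subgroup G, (Nat.card P).Prime → InvariantsIn IsSchurFinite a P) →
        FreeOutside IsSchurFinite a ∧ CyclicSubgroups G) :=
  main (closed_sf hD) a

end Pool.Agent.Results.MP_fc2ced_ag.GroupActions
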