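import Pool.Agent.Run7.h570.GAP.Schur

/-!
# MP_fc2ced_ag: small Schur functors

Let `X` be a smooth projective variety whose cohomology is the direct sum of a part spanned by `b`
algebraic classes `a_i` with rational intersection numbers (and an invertible intersection matrix `G`)
and of a part of odd degree and of dimension `2 n`: for instance a surface with `p_g = q = 0` (`n = 0`),
a cubic or quintic threefold (`b = 4`, `2 n = 10` or `204`), or any complete intersection of odd
dimension. Let `t = Δ - ∑ (G⁻¹)_(i, j) a_i × a_j ∈ CH(X × X)_ℚ`, so that the motive of `X` is the sum of `b` Tate
motives and of `(X, t)`, and is Schur-finite if and only if `(X, t)` is.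

Theorem. The following are equivalent:

1. `Sym^(2 n + 1) (X, t) = 0`, that is, `X` is finite-dimensional in the sense of Kimura;
2. `S_λ (X, t) = 0` for some partition `λ` which does not contain the rectangle with `3` rows and `2 n + 3`
   columns; it is even enough that the Young symmetrizer of `λ`, as a cycle on `X ^ (2 |λ|)`, is
   smash-nilpotent;
3. the same for some partition `λ` of a number smaller than `6 n + 9`.

So if `(X, t)` is Schur-finite but not Kimura-finite then each `λ` with `S_λ (X, t) = 0` contains the rectangle
`3 × (2 n + 3)`. For `n = 0`: a Schur functor `S_λ` with `λ` not containing the `3 × 3` square and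
`S_λ (S, t) = 0` proves Bloch's conjecture for the surface `S`.

Kimura and O'Sullivan; Del Padrone and Mazza have results of this kind for special partitions, without the
use of the self-duality of `t`; traces alone give the rectangle `2 × (2 n + 2)` in place of
`3 × (2 n + 3)`.

Proof. If the motive is not Kimura-finite then, by the theorem of my hand-in `SmashNilpotentGap` on
MP_bf8edd_ag, every element of `ℚ[S_k]` which acts by zero (or by a smash-nilpotent class) on `(X, t) ^ (⊗ k)`
acts by zero on the tensor power of the super vector space with `2` even and `2 n + 2` odd dimensions. The
Young symmetrizers of the partitions which do not contain the rectangle do not have this property: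
label the cells of the first two rows by the rows, with the two even letters, and all other cells by
the columns, with the `2 n + 2` odd letters.
-/

set_option autoImplicit false

open Pool.Agent.Run7.h570.GAP

namespace Pool.Agent.Results.MP_fc2ced_ag.SmallSchurFunctors

universe u

/-- Let `R` be a system `A(m)` of rings with the formal properties of the Chow rings of the powers of a
variety, `a_i` classes in `A(1)` with the invertible symmetric intersection matrix `G` of rank `b`, let the
Euler number be `b - 2 n`, and `t = tr R a G` the complement of the part of the diagonal given by the `a_i`.
Partitions are given by the injective maps `T` from `Fin k` to the cells `(row, column)`, with rows and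
columns numbered from `0`, whose range is a Young diagram. -/
theorem result {R : PowerRings.{u}} {b : ℕ} {a : Fin b → R.A 1} {G : Matrix (Fin b) (Fin b) ℚ}
    (h : PreTate R a G) (n : ℕ)
    (he : R.push (R.push (R.diag * R.diag)) = algebraMap ℚ (R.A 0) (b - 2 * n)) :
    [sym (tr R a G) (2 * n + 1) = 0,
      ∃ (k : ℕ) (T : Fin k → ℕ × ℕ), Function.Injective T ∧ IsLowerSet (Set.range T) ∧
        (2, 2 * n + 2) ∉ Set.range T ∧ SmashNil R (young (tr R a G) T),
      ∃ k < 6 * n + 9, ∃ T : Fin k → ℕ × ℕ, Function.Injective T ∧ IsLowerSet (Set.range T) ∧
        SmashNil R (young (tr R a G) T)].TFAE :=
  h.schur_tfae n he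

end Pool.Agent.Results.MP_fc2ced_ag.SmallSchurFunctors
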